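import Pool.Agent.Lib.MP_191c59_gt.CoreFinal

set_option autoImplicit false

/-!
# `MP_191c59_gt`, Q1: the bound `ind ≤ 3000 · log N · log M`

Let `P` be a finite poset with an order-preserving involution `σ` such that no element `y` lies above
both `x` and `σ x`, for any `x`.  (This holds in the face poset of a strongly regular free
`ℤ/2`-complex: if `x ≤ y` and `σ x ≤ y`, then the intersection of `y` and `σ y` is a non-empty
face, which is mapped by the involution onto itself.)  Then there is an antipodal map from the order complex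
of `P` to the sphere `S ^ n` for some `n ≤ 3000 · log N · log M`, where `N` and `M` are the numbers
of minimal and of maximal elements.
-/

namespace Pool.Agent.Results.MP_191c59_gt.IndexBound

open Pool.Agent.Lib.MP_191c59_gt

theorem result (P : Type) [Fintype P] [PartialOrder P] (σ : P ≃o P)
    (hinv : ∀ x : P, σ (σ x) = x) (hσ : ∀ x y : P, ¬ (x ≤ y ∧ σ x ≤ y)) :
    ∃ n : ℕ, (n : ℝ) ≤ 3000 * Real.log ({x : P | IsMin x}.ncard : ℝ) *
          Real.log ({x : P | IsMax x}.ncard : ℝ) ∧
      ∃ g : (P → ℝ) → EuclideanSpace ℝ (Fin (n + 1)),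
        ContinuousOn g {f : P → ℝ | (∀ p, 0 ≤ f p) ∧ (∑ p, f p = 1) ∧
            IsChain (· ≤ ·) {p : P | f p ≠ 0}} ∧
        ∀ f ∈ {f : P → ℝ | (∀ p, 0 ≤ f p) ∧ (∑ p, f p = 1) ∧
            IsChain (· ≤ ·) {p : P | f p ≠ 0}},
          ‖g f‖ = 1 ∧ g (fun p => f (σ p)) = -g f := by
  rcases isEmpty_or_nonempty P with hE | hne
  · refine ⟨0, ?_, fun _ => 0, continuousOn_const, ?_⟩
    · have h1 : {x : P | IsMin x} = ∅ := Set.eq_empty_of_isEmpty _
      rw [h1]
      simp
    · rintro f ⟨_, hf, _⟩
      simp at hf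
  · exact Core.main_full P σ (fun x y h => σ.monotone h) hinv
      (fun x h => hσ x x ⟨le_refl x, h.le⟩) hσ

end Pool.Agent.Results.MP_191c59_gt.IndexBound
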